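import Pool.Agent.Q17.AM.Stm2

/-!
# JOB SYL of project AM: Sylow subgroups of the wreath product
-/

set_option autoImplicit false

open scoped Classical

noncomputable section

namespace Pool.Agent.Q151.AM

open Pool.Agent.Q17.AM Pool.Agent.Q17.WR

/-- the members of `Dw r D` are the functions with values in `D` -/
def dwEquiv {G : Type} [Group G] (r : ℕ) (D : Subgroup G) : Dw r D ≃ (Cy r → D) where
  toFun x ω := ⟨x.1.left ω, x.2.2 ω⟩
  invFun f := ⟨⟨fun ω => (f ω : G), 1⟩, rfl, fun ω => (f ω).2⟩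
  left_inv := by
    rintro ⟨⟨l, a⟩, h, h'⟩
    have h1 : a = 1 := h
    subst h1
    rfl
  right_inv f := rfl

lemma card_dw {G : Type} [Group G] (r : ℕ) [Fact r.Prime] (D : Subgroup G) :
    Nat.card (Dw r D) = Nat.card D ^ r := by
  rw [Nat.card_congr (dwEquiv r D), Nat.card_fun]
  congr 1
  rw [Nat.card_congr Multiplicative.toAdd, Nat.card_zmod]

lemma card_wc (G : Type) [Group G] (r : ℕ) [Fact r.Prime] :
    Nat.card (Wc G r) = Nat.card G ^ r * r := by
  rw [SemidirectProduct.card, Nat.card_fun]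
  have h : Nat.card (Cy r) = r := by
    rw [Nat.card_congr Multiplicative.toAdd, Nat.card_zmod]
  rw [h]

instance finite_wc (G : Type) [Group G] [Finite G] (r : ℕ) [Fact r.Prime] : Finite (Wc G r) :=
  Nat.finite_of_card_ne_zero (by
    rw [card_wc]
    have h1 : 0 < Nat.card G := Nat.card_pos
    have h2 : 0 < r := (Fact.out : r.Prime).pos
    positivity)

theorem t_SYL : Pool.Agent.Q17.AM.S_SYL := by
  intro G _ _ p r _ _ hpr P
  have hr : r.Prime := Fact.out
  have hp : p.Prime := Fact.out
  have hG : 0 < Nat.card G := Nat.card_pos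
  have h1 : IsPGroup p (Dw r (P : Subgroup G)) := by
    obtain ⟨n, hn⟩ := P.2.exists_card_eq
    refine IsPGroup.of_card (n := n * r) ?_
    rw [card_dw, hn, pow_mul]
  have h2 : ¬ p ∣ (Dw r (P : Subgroup G)).index := by
    have h3 : (Dw r (P : Subgroup G)).index = (P : Subgroup G).index ^ r * r := by
      have h4 := (Dw r (P : Subgroup G)).card_mul_index
      rw [card_dw, card_wc, ← (P : Subgroup G).card_mul_index, mul_pow, mul_assoc] at h4
      have h5 : 0 < Nat.card (P : Subgroup G) ^ r := pow_pos Nat.card_pos r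
      exact Nat.eq_of_mul_eq_mul_left h5 h4
    rw [h3]
    intro h
    rcases hp.dvd_mul.mp h with h | h
    · exact P.not_dvd_index (hp.dvd_of_dvd_pow h)
    · exact hpr ((Nat.prime_dvd_prime_iff_eq hp hr).mp h)
  exact ⟨h1.toSylow h2, rfl⟩

end Pool.Agent.Q151.AM
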