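import Pool.Agent.Q17.AM.Stm2
import Pool.Agent.H254R3.IN.PI

/-!
# Project AM: the wreath product with the group of order two
-/

set_option autoImplicit false

open scoped Classical

noncomputable section

namespace Pool.Agent.Q151.AM

open Pool.Agent.Q17.AM Pool.Agent.Q17.WR Pool.Agent.H254R3.IN

/-- the generator of the group of order two -/
abbrev aa : Cy 2 := Multiplicative.ofAdd 1

lemma aa_ne : (aa : Cy 2) ≠ 1 := by decide

lemma cy2 (ω : Cy 2) : ω = 1 ∨ ω = aa := by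
  revert ω
  decide

lemma aa_mul : (aa : Cy 2) * aa = 1 := by decide

lemma aa_inv : (aa : Cy 2)⁻¹ = aa := by decide

lemma sm2 {M : Type} [AddCommMonoid M] [Fintype (Cy 2)] (F : Cy 2 → M) :
    ∑ ω, F ω = F 1 + F aa := by
  refine Fintype.sum_eq_add 1 aa (Ne.symm aa_ne) ?_
  rintro x ⟨h1, h2⟩
  rcases cy2 x with h | h
  · exact absurd h h1
  · exact absurd h h2

lemma pr2 {M : Type} [CommMonoid M] [Fintype (Cy 2)] (F : Cy 2 → M) :
    ∏ ω, F ω = F 1 * F aa := by
  refine Fintype.prod_eq_mul 1 aa (Ne.symm aa_ne) ?_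
  rintro x ⟨h1, h2⟩
  rcases cy2 x with h | h
  · exact absurd h h1
  · exact absurd h h2

section

variable {G : Type} [Group G]

/-- the element with given components -/
def mk2 (u v : G) (a : Cy 2) : Wc G 2 := ⟨fun ω => if ω = 1 then u else v, a⟩

lemma mk2_right (u v : G) (a : Cy 2) : (mk2 u v a).right = a := rfl

lemma mk2_one (u v : G) (a : Cy 2) : (mk2 u v a).left 1 = u := by
  show (if (1 : Cy 2) = 1 then u else v) = u
  exact if_pos rfl

lemma mk2_aa (u v : G) (a : Cy 2) : (mk2 u v a).left aa = v := by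
  show (if (aa : Cy 2) = 1 then u else v) = v
  exact if_neg aa_ne

lemma arr (a : Cy 2) (m : Cy 2 → G) (ω : Cy 2) :
    (mulAutArrow (G := Cy 2) (A := Cy 2) (M := G) a m) ω = m (a⁻¹ * ω) := rfl

lemma ext2 {x y : Wc G 2} (h : x.right = y.right) (h1 : x.left 1 = y.left 1)
    (h2 : x.left aa = y.left aa) : x = y := by
  refine SemidirectProduct.ext ?_ h
  funext ω
  rcases cy2 ω with rfl | rfl
  · exact h1
  · exact h2

lemma cj_right (c x : Wc G 2) (hx : x.right = 1) : (c * x * c⁻¹).right = 1 := by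
  rw [SemidirectProduct.mul_right, SemidirectProduct.mul_right, hx, mul_one,
    SemidirectProduct.inv_right, mul_inv_cancel]

lemma cj_left (c x : Wc G 2) (hx : x.right = 1) (ω : Cy 2) :
    (c * x * c⁻¹).left ω = c.left ω * x.left (c.right⁻¹ * ω) * (c.left ω)⁻¹ := by
  rw [SemidirectProduct.mul_left, SemidirectProduct.mul_left, SemidirectProduct.inv_left,
    Pi.mul_apply, Pi.mul_apply, arr, arr, arr, Pi.inv_apply, SemidirectProduct.mul_right, hx,
    mul_one, inv_inv, mul_inv_cancel_left]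

/-- conjugate elements of the base group -/
lemma conj2 {x y : Wc G 2} (hx : x.right = 1) : IsConj x y ↔ y.right = 1 ∧
    ((IsConj (x.left 1) (y.left 1) ∧ IsConj (x.left aa) (y.left aa)) ∨
      (IsConj (x.left aa) (y.left 1) ∧ IsConj (x.left 1) (y.left aa))) := by
  constructor
  · intro h
    obtain ⟨c, rfl⟩ := isConj_iff.mp h
    refine ⟨cj_right c x hx, ?_⟩
    rw [cj_left c x hx, cj_left c x hx]
    rcases cy2 c.right with h | h
    · left
      rw [h, inv_one, one_mul, one_mul]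
      exact ⟨isConj_iff.mpr ⟨_, rfl⟩, isConj_iff.mpr ⟨_, rfl⟩⟩
    · right
      rw [h, aa_inv, mul_one, aa_mul]
      exact ⟨isConj_iff.mpr ⟨_, rfl⟩, isConj_iff.mpr ⟨_, rfl⟩⟩
  · rintro ⟨hy, ⟨h1, h2⟩ | ⟨h1, h2⟩⟩
    · obtain ⟨u, hu⟩ := isConj_iff.mp h1
      obtain ⟨v, hv⟩ := isConj_iff.mp h2
      refine isConj_iff.mpr ⟨mk2 u v 1, ?_⟩
      refine ext2 ?_ ?_ ?_
      · rw [cj_right _ _ hx, hy]
      · rw [cj_left _ _ hx, mk2_one, mk2_right, inv_one, one_mul, hu]
      · rw [cj_left _ _ hx, mk2_aa, mk2_right, inv_one, one_mul, hv]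
    · obtain ⟨u, hu⟩ := isConj_iff.mp h1
      obtain ⟨v, hv⟩ := isConj_iff.mp h2
      refine isConj_iff.mpr ⟨mk2 u v aa, ?_⟩
      refine ext2 ?_ ?_ ?_
      · rw [cj_right _ _ hx, hy]
      · rw [cj_left _ _ hx, mk2_one, mk2_right, aa_inv, mul_one, hu]
      · rw [cj_left _ _ hx, mk2_aa, mk2_right, aa_inv, aa_mul, hv]

/-- the symmetric function -/
def EE (e e' : G → ℂ) (x : Wc G 2) : ℂ :=
  if x.right = 1 then e (x.left 1) * e' (x.left aa) + e' (x.left 1) * e (x.left aa) else 0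

lemma EE_pos (e e' : G → ℂ) {x : Wc G 2} (hx : x.right = 1) :
    EE e e' x = e (x.left 1) * e' (x.left aa) + e' (x.left 1) * e (x.left aa) := if_pos hx

lemma EE_neg (e e' : G → ℂ) {x : Wc G 2} (hx : x.right ≠ 1) : EE e e' x = 0 := if_neg hx

lemma EE_cl [Fintype G] {e e' : G → ℂ} (he : IsCl e) (he' : IsCl e') : IsCl (EE e e') := by
  intro x y
  by_cases hx : x.right = 1
  · have h : IsConj x (y * x * y⁻¹) := isConj_iff.mpr ⟨y, rfl⟩
    obtain ⟨h0, h1⟩ := (conj2 hx).mp h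
    rw [EE_pos _ _ h0, EE_pos _ _ hx]
    rcases h1 with ⟨h1, h2⟩ | ⟨h1, h2⟩
    · rw [he.isConj h1, he.isConj h2, he'.isConj h1, he'.isConj h2]
    · rw [he.isConj h1, he.isConj h2, he'.isConj h1, he'.isConj h2]
      ring
  · have h : (y * x * y⁻¹).right ≠ 1 := by
      intro h0
      apply hx
      have h2 := cj_right y⁻¹ (y * x * y⁻¹) h0
      have h3 : y⁻¹ * (y * x * y⁻¹) * y⁻¹⁻¹ = x := by group
      rwa [h3] at h2
    rw [EE_neg _ _ h, EE_neg _ _ hx]

lemma nch_EE (f : Cy 2 → G → ℂ) : (nch f : Wc G 2 → ℂ) = EE (f 1) (f aa) := by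
  funext x
  unfold nch EE
  by_cases hx : x.right = 1
  · rw [if_pos hx, if_pos hx, sm2]
    unfold prf
    rw [pr2, pr2]
    simp only [one_mul, mul_one, aa_mul]
  · rw [if_neg hx, if_neg hx]

lemma cch_pos (θ : G → ℂ) (l : Cy 2 →* ℂˣ) {x : Wc G 2} (hx : x.right = 1) :
    cch θ l x = θ (x.left 1) * θ (x.left aa) := by
  unfold cch
  rw [if_pos hx, pr2]

variable [Fintype G]

/-- a sum over the base group -/
lemma sum_base [Fintype (Wc G 2)] (F : Wc G 2 → ℂ) (hF : ∀ x, x.right ≠ 1 → F x = 0) :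
    ∑ x, F x = ∑ u, ∑ v, F (mk2 u v 1) := by
  rw [← Fintype.sum_prod_type' (f := fun u v => F (mk2 u v 1))]
  rw [← Finset.sum_subset (s₁ := Finset.univ.filter (fun x : Wc G 2 => x.right = 1))
    (Finset.subset_univ _) (fun x _ hx => hF x (by simpa using hx))]
  refine Finset.sum_nbij' (fun x => (x.left 1, x.left aa)) (fun q => mk2 q.1 q.2 1) ?_ ?_ ?_ ?_ ?_
  · intro x _
    exact Finset.mem_univ _
  · intro q _
    exact Finset.mem_filter.mpr ⟨Finset.mem_univ _, rfl⟩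
  · intro x hx
    have h := (Finset.mem_filter.mp hx).2
    exact ext2 h.symm (mk2_one _ _ 1) (mk2_aa _ _ 1)
  · intro q _
    exact Prod.ext (mk2_one q.1 q.2 1) (mk2_aa q.1 q.2 1)
  · intro x hx
    have h := (Finset.mem_filter.mp hx).2
    congr 1
    exact ext2 h (mk2_one _ _ 1).symm (mk2_aa _ _ 1).symm

lemma sum_mul_EE [Fintype (Wc G 2)] (e e' h h' : G → ℂ) : ∑ x, EE e e' x * EE h h' x =
    2 * ((∑ g, e g * h g) * (∑ g, e' g * h' g) + (∑ g, e g * h' g) * (∑ g, e' g * h g)) := by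
  rw [sum_base _ (fun x hx => by rw [EE_neg _ _ hx, zero_mul])]
  have h1 : ∀ u v : G, EE e e' (mk2 u v 1) * EE h h' (mk2 u v 1) =
      (e u * h u) * (e' v * h' v) + (e u * h' u) * (e' v * h v) +
      (e' u * h u) * (e v * h' v) + (e' u * h' u) * (e v * h v) := by
    intro u v
    rw [EE_pos _ _ rfl, EE_pos _ _ rfl, mk2_one, mk2_aa]
    ring
  simp only [h1, Finset.sum_add_distrib, ← Finset.mul_sum, ← Finset.sum_mul]
  ring

end

end Pool.Agent.Q151.AM
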