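import Pool.Agent.Q151.AM.Bas
import Pool.Agent.Q151.AM.SYL

/-!
# JOB GBL of project AM: the block over two different blocks
-/

set_option autoImplicit false

open scoped Classical

noncomputable section

namespace Pool.Agent.Q151.AM

open Pool.Agent.Q17.AM Pool.Agent.Q17.WR Pool.Agent.H254R3.IN Pool.Agent.Q17.DC

section om

variable {G : Type} [Group G] [Fintype G]

lemma EE_at_one (e e' : G → ℂ) : (EE e e' : Wc G 2 → ℂ) 1 = 2 * (e 1 * e' 1) := by
  have h : (1 : Wc G 2).right = 1 := rfl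
  rw [EE_pos _ _ h]
  have h1 : ∀ ω, (1 : Wc G 2).left ω = 1 := fun ω => rfl
  rw [h1, h1]
  ring

lemma Om_EE_nch [Fintype (Wc G 2)] (e e' : G → ℂ) {f : Cy 2 → G → ℂ} (h1 : f 1 1 ≠ 0)
    (h2 : f aa 1 ≠ 0) : Om (EE e e') (nch f : Wc G 2 → ℂ) =
      Om e (f 1) * Om e' (f aa) + Om e (f aa) * Om e' (f 1) := by
  unfold Om
  rw [nch_EE, sum_mul_EE, EE_at_one]
  field_simp

lemma Om_EE_cch [Fintype (Wc G 2)] (e e' : G → ℂ) {θ : G → ℂ} (l : Cy 2 →* ℂˣ)
    (h1 : θ 1 ≠ 0) : Om (EE e e') (cch θ l : Wc G 2 → ℂ) = 2 * (Om e θ * Om e' θ) := by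
  have h2 : ∀ x : Wc G 2, EE e e' x * cch θ l x = EE e e' x * EE θ θ x * (1 / 2) := by
    intro x
    by_cases hx : x.right = 1
    · rw [cch_pos θ l hx, EE_pos θ θ hx]
      ring
    · rw [EE_neg _ _ hx]
      ring
  have h3 : (cch θ l : Wc G 2 → ℂ) 1 = θ 1 * θ 1 := by
    rw [cch_pos θ l rfl]
    rfl
  unfold Om
  simp only [h2]
  rw [← Finset.sum_mul, sum_mul_EE, h3]
  field_simp
  ring

end om

section blk

variable {G : Type} [Group G] [Fintype G] {O : ValuationSubring ℂ}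

lemma block_disj {B B' : Set (G → ℂ)} (hB : IsBlock O B) (hB' : IsBlock O B') {χ : G → ℂ}
    (h : χ ∈ B) (h' : χ ∈ B') : B = B' := by
  ext ψ
  constructor
  · intro hψ
    by_contra hn
    obtain ⟨x, hx⟩ := hB'.exists_ne h' (hB.irr ψ hψ) hn
    exact hx (hB.red_eq h hψ x)
  · intro hψ
    by_contra hn
    obtain ⟨x, hx⟩ := hB.exists_ne h (hB'.irr ψ hψ) hn
    exact hx (hB'.red_eq h' hψ x)

variable {B B' : Set (G → ℂ)}

lemma gx_irr (hC : S_CLS) (hB : IsBlock O B) (hB' : IsBlock O B') (hne : B ≠ B') :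
    ∀ χ ∈ GX B B', IsIrr χ := by
  rintro _ ⟨f, h1, h2, rfl⟩
  refine (hC G 2).1 f ?_ ⟨1, aa, ?_⟩
  · intro ω
    rcases cy2 ω with rfl | rfl
    · exact hB.irr _ h1
    · exact hB'.irr _ h2
  · intro h
    rw [h] at h1
    exact hne (block_disj hB hB' h1 h2)

lemma gx_ne (hB : IsBlock O B) (hB' : IsBlock O B') : ∃ χ : Wc G 2 → ℂ, χ ∈ GX B B' := by
  obtain ⟨χ, h⟩ := hB.nonempty
  obtain ⟨χ', h'⟩ := hB'.nonempty
  refine ⟨nch (fun ω => if ω = 1 then χ else χ'), _, ?_, ?_, rfl⟩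
  · show (if (1 : Cy 2) = 1 then χ else χ') ∈ B
    rw [if_pos rfl]
    exact h
  · show (if (aa : Cy 2) = 1 then χ else χ') ∈ B'
    rw [if_neg aa_ne]
    exact h'

lemma nch_swap (f : Cy 2 → G → ℂ) : (nch f : Wc G 2 → ℂ) = nch (fun ω => f (aa * ω)) := by
  rw [nch_EE, nch_EE]
  funext x
  simp only [mul_one, aa_mul]
  unfold EE
  split_ifs
  · ring
  · rfl

lemma Om_gx (hC : S_CLS) (hB : IsBlock O B) (hB' : IsBlock O B') (hne : B ≠ B')
    [Fintype (Wc G 2)] {ψ : Wc G 2 → ℂ} (hψ : IsIrr ψ) :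
    Om (EE (blockCoeff B) (blockCoeff B')) ψ = if ψ ∈ GX B B' then 1 else 0 := by
  by_cases hm : ψ ∈ GX B B'
  · rw [if_pos hm]
    obtain ⟨f, h1, h2, rfl⟩ := hm
    have i1 := hB.irr _ h1
    have i2 := hB'.irr _ h2
    have n1 : f aa ∉ B := fun h => hne (block_disj hB hB' h h2)
    rw [Om_EE_nch _ _ i1.one_ne i2.one_ne, Om_blockCoeff hB.irr i1, Om_blockCoeff hB'.irr i2,
      Om_blockCoeff hB.irr i2, if_pos h1, if_pos h2, if_neg n1]
    ring
  · rw [if_neg hm]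
    rcases (hC G 2).2.2.1 ψ hψ with ⟨f, hf, _, rfl⟩ | ⟨θ, hθ, l, rfl⟩
    · have i1 : IsIrr (f 1) := hf 1
      have i2 : IsIrr (f aa) := hf aa
      rw [Om_EE_nch _ _ i1.one_ne i2.one_ne, Om_blockCoeff hB.irr i1, Om_blockCoeff hB'.irr i2,
        Om_blockCoeff hB.irr i2, Om_blockCoeff hB'.irr i1]
      have a1 : ¬ (f 1 ∈ B ∧ f aa ∈ B') := fun h => hm ⟨f, h.1, h.2, rfl⟩
      have a2 : ¬ (f aa ∈ B ∧ f 1 ∈ B') := fun h => hm ⟨fun ω => f (aa * ω), by
        show f (aa * 1) ∈ B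
        rw [mul_one]
        exact h.1, by
        show f (aa * aa) ∈ B'
        rw [aa_mul]
        exact h.2, nch_swap f⟩
      have c1 : (if f 1 ∈ B then (1 : ℂ) else 0) * (if f aa ∈ B' then 1 else 0) = 0 := by
        by_cases h1 : f 1 ∈ B
        · rw [if_neg (fun h2 => a1 ⟨h1, h2⟩), mul_zero]
        · rw [if_neg h1, zero_mul]
      have c2 : (if f aa ∈ B then (1 : ℂ) else 0) * (if f 1 ∈ B' then 1 else 0) = 0 := by
        by_cases h1 : f aa ∈ B
        · rw [if_neg (fun h2 => a2 ⟨h1, h2⟩), mul_zero]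
        · rw [if_neg h1, zero_mul]
      rw [c1, c2, add_zero]
    · have i1 : IsIrr θ := hθ
      rw [Om_EE_cch _ _ _ i1.one_ne, Om_blockCoeff hB.irr i1, Om_blockCoeff hB'.irr i1]
      by_cases h1 : θ ∈ B
      · rw [if_neg (fun h2 => hne (block_disj hB hB' h1 h2)), mul_zero, mul_zero]
      · rw [if_neg h1, zero_mul, mul_zero]

lemma EE_mem {e e' : G → ℂ} (he : ∀ g, e g ∈ O) (he' : ∀ g, e' g ∈ O) (x : Wc G 2) :
    EE e e' x ∈ O := by
  unfold EE
  split_ifs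
  · exact O.add_mem _ _ (O.mul_mem _ _ (he _) (he' _)) (O.mul_mem _ _ (he' _) (he _))
  · exact O.zero_mem

/-- the central characters of the induced characters modulo the maximal ideal -/
lemma red_omega (hc : S_CCL) (hC : S_CLS) {x : Wc G 2} (hx : x.right = 1) : ∃ n : ℕ,
    Nat.card {y : Wc G 2 // IsConj x y} = n * (Nat.card {y : G // IsConj (x.left 1) y} *
      Nat.card {y : G // IsConj (x.left aa) y}) ∧ (n = 1 ∨ n = 2) ∧
    ∀ f : Cy 2 → G → ℂ, IsIrr (f 1) → IsIrr (f aa) → f 1 ≠ f aa →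
      red O 2 * red O (omega (nch f) x) = red O n *
        (red O (omega (f 1) (x.left 1)) * red O (omega (f aa) (x.left aa)) +
          red O (omega (f aa) (x.left 1)) * red O (omega (f 1) (x.left aa))) := by
  obtain ⟨n, h1, h2, h3, -⟩ := (hc G 2).1 x hx
  have : Fintype (Wc G 2) := Fintype.ofFinite _
  refine ⟨n, ?_, h2, ?_⟩
  · rw [h1, pr2]
  · intro f i1 i2 hne
    have h4 := h3 f
    rw [sm2, pr2, pr2] at h4
    simp only [mul_one, one_mul, aa_mul] at h4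
    have hf : ∀ ω, IsIrr (f ω) := by
      intro ω
      rcases cy2 ω with rfl | rfl
      · exact i1
      · exact i2
    have i3 : IsIrr (nch f : Wc G 2 → ℂ) := (hC G 2).1 f hf ⟨1, aa, hne⟩
    have m2 : (2 : ℂ) ∈ O := by
      have := natCast_mem' (O := O) 2
      exact_mod_cast this
    have a1 := i1.omega_mem O (x.left 1)
    have a2 := i2.omega_mem O (x.left aa)
    have a3 := i2.omega_mem O (x.left 1)
    have a4 := i1.omega_mem O (x.left aa)
    rw [← red_mul m2 (i3.omega_mem O x), ← red_mul a1 a2, ← red_mul a3 a4,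
      ← red_add (O.mul_mem _ _ a1 a2) (O.mul_mem _ _ a3 a4),
      ← red_mul (natCast_mem' n) (O.add_mem _ _ (O.mul_mem _ _ a1 a2) (O.mul_mem _ _ a3 a4)),
      ← h4]
    norm_cast

variable {p : ℕ} [Fact p.Prime]

lemma red_two (hp : p ≠ 2) (hpO : (p : ℂ) ∈ O.nonunits) : red O 2 ≠ 0 := by
  intro h
  have h1 := (red_nat_eq_zero_iff hpO 2).mp (by exact_mod_cast h)
  exact hp ((Nat.prime_dvd_prime_iff_eq Fact.out Nat.prime_two).mp h1)

theorem gx_block (hC : S_CLS) (hc : S_CCL) (hp : p ≠ 2) (hpO : (p : ℂ) ∈ O.nonunits)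
    (hB : IsBlock O B) (hB' : IsBlock O B') (hne : B ≠ B') : IsBlock O (GX B B') := by
  have : Fintype (Wc G 2) := Fintype.ofFinite _
  obtain ⟨Ψ, hΨ⟩ := gx_ne hB hB'
  have iΨ := gx_irr hC hB hB' hne Ψ hΨ
  refine ⟨Ψ, iΨ, ?_⟩
  ext ψ
  constructor
  · intro hψ
    have iψ := gx_irr hC hB hB' hne ψ hψ
    refine ⟨iψ, fun x => ?_⟩
    rw [← red_eq_iff (iψ.omega_mem O x) (iΨ.omega_mem O x)]
    obtain ⟨f, f1, f2, rfl⟩ := hψ
    obtain ⟨h, h1, h2, rfl⟩ := hΨ
    by_cases hx : x.right = 1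
    · obtain ⟨n, -, -, hn⟩ := red_omega (O := O) hc hC hx
      have e1 := hn f (hB.irr _ f1) (hB'.irr _ f2)
        (fun he => hne (block_disj hB hB' (he ▸ f1) f2))
      have e2 := hn h (hB.irr _ h1) (hB'.irr _ h2)
        (fun he => hne (block_disj hB hB' (he ▸ h1) h2))
      rw [hB.red_eq f1 h1, hB.red_eq f1 h1, hB'.red_eq f2 h2, hB'.red_eq f2 h2, ← e2] at e1
      exact mul_left_cancel₀ (red_two hp hpO) e1
    · rw [((hc G 2).2 x hx).1, ((hc G 2).2 x hx).1]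
  · rintro ⟨iψ, hψ⟩
    by_contra hn
    have hcl : IsCl (EE (blockCoeff B) (blockCoeff B') : Wc G 2 → ℂ) :=
      EE_cl (blockCoeff_cl hB.irr) (blockCoeff_cl hB'.irr)
    have hO : ∀ g : Wc G 2, EE (blockCoeff B) (blockCoeff B') g ∈ O :=
      EE_mem (blockCoeff_mem hB) (blockCoeff_mem hB')
    have e1 := (red_Om iψ hcl hO).2
    have e2 := (red_Om iΨ hcl hO).2
    rw [Om_gx hC hB hB' hne iψ, if_neg hn, red_zero] at e1
    rw [Om_gx hC hB hB' hne iΨ, if_pos hΨ, red_one] at e2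
    have e3 : ∀ K : ConjClasses (Wc G 2), red O (omega ψ (rep K)) = red O (omega Ψ (rep K)) :=
      fun K => (red_eq_iff (iψ.omega_mem O _) (iΨ.omega_mem O _)).mpr (hψ _)
    simp only [e3] at e1
    rw [← e1] at e2
    exact one_ne_zero e2

theorem gx_coeff (hC : S_CLS) (hB : IsBlock O B) (hB' : IsBlock O B') (hne : B ≠ B') :
    blockCoeff (GX B B') = EE (blockCoeff B) (blockCoeff B') := by
  have : Fintype (Wc G 2) := Fintype.ofFinite _
  refine eq_of_Om (blockCoeff_cl (gx_irr hC hB hB' hne))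
    (EE_cl (blockCoeff_cl hB.irr) (blockCoeff_cl hB'.irr)) fun χ hχ => ?_
  rw [Om_blockCoeff (gx_irr hC hB hB' hne) hχ, Om_gx hC hB hB' hne hχ]

end blk

section syl

variable {G : Type} [Group G] [Fintype G] {p : ℕ} [Fact p.Prime]

/-- all `p`-subgroups centralising `y` are conjugate into `D` -/
def QQ (p : ℕ) (D : Subgroup G) (y : G) : Prop :=
  ∀ R : Subgroup G, IsPGroup p R → (∀ r ∈ R, Commute r y) → ∃ g : G, ∀ r ∈ R, g * r * g⁻¹ ∈ D

lemma syl_of {D : Subgroup G} (hD : IsPGroup p D) {y g : G} (hQ : QQ p D y)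
    (hg : ∀ d ∈ D, Commute (g * d * g⁻¹) y) :
    D ≤ Subgroup.centralizer ({g⁻¹ * y * g} : Set G) ∧
    ∃ k : ℕ, ¬ p ∣ k ∧
      Nat.card (Subgroup.centralizer ({g⁻¹ * y * g} : Set G)) = Nat.card D * k := by
  have hle : D ≤ Subgroup.centralizer ({g⁻¹ * y * g} : Set G) := by
    intro d hd
    rw [Subgroup.mem_centralizer_singleton_iff]
    have h1 : g * d * g⁻¹ * y = y * (g * d * g⁻¹) := hg d hd
    calc d * (g⁻¹ * y * g) = g⁻¹ * (g * d * g⁻¹ * y) * g := by group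
      _ = g⁻¹ * (y * (g * d * g⁻¹)) * g := by rw [h1]
      _ = g⁻¹ * y * g * d := by group
  refine ⟨hle, ?_⟩
  obtain ⟨C, hC⟩ : ∃ C, C = Subgroup.centralizer ({g⁻¹ * y * g} : Set G) := ⟨_, rfl⟩
  rw [← hC] at hle ⊢
  have hD' : IsPGroup p (D.subgroupOf C) := hD.comap_subtype
  obtain ⟨P, hP⟩ := hD'.exists_le_sylow
  have hR : IsPGroup p ((P : Subgroup C).map C.subtype) := P.2.map _
  have hc1 : Nat.card (P : Subgroup C) = Nat.card ((P : Subgroup C).map C.subtype) :=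
    (Nat.card_congr ((P : Subgroup C).equivMapOfInjective C.subtype
      C.subtype_injective).toEquiv)
  have hRc : ∀ r ∈ (P : Subgroup C).map C.subtype, Commute r (g⁻¹ * y * g) := by
    rintro _ ⟨c, -, rfl⟩
    have h0 : ∀ z ∈ C, z ∈ Subgroup.centralizer ({g⁻¹ * y * g} : Set G) := by
      intro z hz
      rw [← hC]
      exact hz
    exact Subgroup.mem_centralizer_singleton_iff.mp (h0 c c.2)
  obtain ⟨h, hh⟩ := hQ (((P : Subgroup C).map C.subtype).map (MulAut.conj g).toMonoidHom)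
    (hR.map _) (by
      rintro _ ⟨r, hr, rfl⟩
      have h1 : r * (g⁻¹ * y * g) = g⁻¹ * y * g * r := hRc r hr
      show g * r * g⁻¹ * y = y * (g * r * g⁻¹)
      calc g * r * g⁻¹ * y = g * (r * (g⁻¹ * y * g)) * g⁻¹ := by group
        _ = g * (g⁻¹ * y * g * r) * g⁻¹ := by rw [h1]
        _ = y * (g * r * g⁻¹) := by group)
  have hle2 : Nat.card ((P : Subgroup C).map C.subtype) ≤ Nat.card D := by
    refine Nat.card_le_card_of_injective
      (fun r : (P : Subgroup C).map C.subtype => (⟨h * (g * (r : G) * g⁻¹) * h⁻¹,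
        hh _ ⟨(r : G), r.2, rfl⟩⟩ : D)) ?_
    intro r s hrs
    have h1 : h * (g * (r : G) * g⁻¹) * h⁻¹ = h * (g * (s : G) * g⁻¹) * h⁻¹ :=
      congrArg Subtype.val hrs
    apply Subtype.ext
    simpa using h1
  have hc2 : Nat.card (D.subgroupOf C) = Nat.card D :=
    Nat.card_congr (Subgroup.subgroupOfEquivOfLe hle).toEquiv
  have heq : D.subgroupOf C = (P : Subgroup C) := by
    refine Subgroup.eq_of_le_of_card_ge hP ?_
    rw [hc2, hc1]
    exact hle2
  refine ⟨(P : Subgroup C).index, P.not_dvd_index, ?_⟩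
  rw [← hc2, heq]
  exact ((P : Subgroup C).card_mul_index).symm

end syl

theorem t_GBL : S_CLS → S_CCL → S_MMX → S_GBL := by
  intro hC hc hM G _ _ p _ hp O hpO B B' hB hB' hne D hD hD'
  have : Fintype (Wc G 2) := Fintype.ofFinite _
  have hpp : p.Prime := Fact.out
  have hblk := gx_block hC hc hp hpO hB hB' hne
  refine ⟨hblk, ?_⟩
  obtain ⟨-, hM1⟩ := hM G p O hpO B hB
  obtain ⟨-, hM2⟩ := hM G p O hpO B' hB'
  obtain ⟨q1, c1⟩ := hM1 D hD
  obtain ⟨q2, c2⟩ := hM2 D hD'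
  have hDp : IsPGroup p D := by
    obtain ⟨x, ⟨P, hP⟩, -⟩ := hD
    rw [hP]
    exact P.2.map _
  obtain ⟨Ψ, hΨ⟩ := gx_ne hB hB'
  have iΨ := gx_irr hC hB hB' hne Ψ hΨ
  have bB := fun g => blockCoeff_mem hB g
  have bB' := fun g => blockCoeff_mem hB' g
  have hcl : IsCl (EE (blockCoeff B) (blockCoeff B') : Wc G 2 → ℂ) :=
    EE_cl (blockCoeff_cl hB.irr) (blockCoeff_cl hB'.irr)
  have hO : ∀ g : Wc G 2, EE (blockCoeff B) (blockCoeff B') g ∈ O := EE_mem bB bB'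
  have e2 := (red_Om iΨ hcl hO).2
  rw [Om_gx hC hB hB' hne iΨ, if_pos hΨ, red_one] at e2
  have e3 : ∑ K : ConjClasses (Wc G 2), red O (EE (blockCoeff B) (blockCoeff B') (rep K)) *
      red O (omega Ψ (rep K)) ≠ 0 := by
    rw [← e2]
    exact one_ne_zero
  obtain ⟨K, -, hK⟩ := Finset.exists_ne_zero_of_sum_ne_zero e3
  obtain ⟨x, hx⟩ : ∃ x, x = rep K := ⟨_, rfl⟩
  rw [← hx] at hK
  have k1 : red O (EE (blockCoeff B) (blockCoeff B') x) ≠ 0 := left_ne_zero_of_mul hK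
  have k2 : red O (omega Ψ x) ≠ 0 := right_ne_zero_of_mul hK
  have hxr : x.right = 1 := by
    by_contra h
    rw [EE_neg _ _ h, red_zero] at k1
    exact k1 rfl
  have nz : ∀ {t : ℂ}, red O t ≠ 0 → t ∉ O.nonunits := fun h h1 => h (red_eq_zero h1)
  -- first property
  have hQ : QQ p D (x.left 1) ∧ QQ p D (x.left aa) := by
    rw [EE_pos _ _ hxr, red_add (O.mul_mem _ _ (bB _) (bB' _)) (O.mul_mem _ _ (bB' _) (bB _)),
      red_mul (bB _) (bB' _), red_mul (bB' _) (bB _)] at k1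
    by_cases h1 : red O (blockCoeff B (x.left 1)) * red O (blockCoeff B' (x.left aa)) = 0
    · rw [h1, zero_add] at k1
      exact ⟨q2 _ (nz (left_ne_zero_of_mul k1)), q1 _ (nz (right_ne_zero_of_mul k1))⟩
    · exact ⟨q1 _ (nz (left_ne_zero_of_mul h1)), q2 _ (nz (right_ne_zero_of_mul h1))⟩
  -- second property
  have hP : (∃ g : G, ∀ d ∈ D, Commute (g * d * g⁻¹) (x.left 1)) ∧
      ∃ g : G, ∀ d ∈ D, Commute (g * d * g⁻¹) (x.left aa) := by
    obtain ⟨n, -, -, hn⟩ := red_omega (O := O) hc hC hxr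
    obtain ⟨f, f1, f2, hf⟩ := hΨ
    have h0 := hn f (hB.irr _ f1) (hB'.irr _ f2)
      (fun he => hne (block_disj hB hB' (he ▸ f1) f2))
    rw [← hf] at h0
    have h1 := mul_ne_zero (red_two hp hpO) k2
    rw [h0] at h1
    have h2 := right_ne_zero_of_mul h1
    by_cases h3 : red O (omega (f 1) (x.left 1)) *
        red O (omega (f (Multiplicative.ofAdd 1)) (x.left aa)) = 0
    · rw [h3, zero_add] at h2
      exact ⟨c2 _ _ f2 (nz (left_ne_zero_of_mul h2)), c1 _ _ f1 (nz (right_ne_zero_of_mul h2))⟩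
    · exact ⟨c1 _ _ f1 (nz (left_ne_zero_of_mul h3)), c2 _ _ f2 (nz (right_ne_zero_of_mul h3))⟩
  obtain ⟨⟨g1, hg1⟩, ⟨g2, hg2⟩⟩ := hP
  obtain ⟨le1, m1, hm1, hm1'⟩ := syl_of hDp hQ.1 hg1
  obtain ⟨le2, m2, hm2, hm2'⟩ := syl_of hDp hQ.2 hg2
  obtain ⟨x', hx'⟩ : ∃ x' : Wc G 2, x' = mk2 (g1⁻¹ * x.left 1 * g1) (g2⁻¹ * x.left aa * g2) 1 :=
    ⟨_, rfl⟩
  have r' : x'.right = 1 := by rw [hx']; rfl
  have l1 : x'.left 1 = g1⁻¹ * x.left 1 * g1 := by rw [hx', mk2_one]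
  have l2 : x'.left aa = g2⁻¹ * x.left aa * g2 := by rw [hx', mk2_aa]
  have hconj : IsConj x x' := by
    rw [conj2 hxr]
    refine ⟨r', Or.inl ⟨?_, ?_⟩⟩
    · rw [l1]
      exact isConj_iff.mpr ⟨g1⁻¹, by rw [inv_inv]⟩
    · rw [l2]
      exact isConj_iff.mpr ⟨g2⁻¹, by rw [inv_inv]⟩
  rw [← l1] at le1 hm1'
  rw [← l2] at le2 hm2'
  have hle : Dw 2 D ≤ Subgroup.centralizer ({x'} : Set (Wc G 2)) := by
    rintro y ⟨hy, hy'⟩
    rw [Subgroup.mem_centralizer_singleton_iff]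
    refine ext2 ?_ ?_ ?_
    · rw [SemidirectProduct.mul_right, SemidirectProduct.mul_right, hy, r']
    · rw [SemidirectProduct.mul_left, SemidirectProduct.mul_left, Pi.mul_apply, Pi.mul_apply,
        arr, arr, hy, r', inv_one, one_mul]
      exact Subgroup.mem_centralizer_singleton_iff.mp (le1 (hy' 1))
    · rw [SemidirectProduct.mul_left, SemidirectProduct.mul_left, Pi.mul_apply, Pi.mul_apply,
        arr, arr, hy, r', inv_one, one_mul]
      exact Subgroup.mem_centralizer_singleton_iff.mp (le2 (hy' aa))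
  have hc2 : Nat.card ((Dw 2 D).subgroupOf (Subgroup.centralizer ({x'} : Set (Wc G 2)))) =
      Nat.card D ^ 2 := by
    rw [Nat.card_congr (Subgroup.subgroupOfEquivOfLe hle).toEquiv, card_dw]
  have hidx : ¬ p ∣ ((Dw 2 D).subgroupOf (Subgroup.centralizer ({x'} : Set (Wc G 2)))).index := by
    obtain ⟨n, hn1, hn2, -⟩ := red_omega (O := O) hc hC r'
    have t1 := card_class_mul (x'.left 1)
    have t2 := card_class_mul (x'.left aa)
    have t3 := card_class_mul x'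
    have t4 := ((Dw 2 D).subgroupOf
      (Subgroup.centralizer ({x'} : Set (Wc G 2)))).card_mul_index
    rw [hc2] at t4
    rw [card_wc, hn1, ← t4] at t3
    rw [hm1'] at t1
    rw [hm2'] at t2
    have p1 := card_class_pos (x'.left 1)
    have p2 := card_class_pos (x'.left aa)
    have p3 : 0 < Nat.card D := Nat.card_pos
    obtain ⟨a, ha⟩ : ∃ a, a = Nat.card {y : G // IsConj (x'.left 1) y} := ⟨_, rfl⟩
    obtain ⟨b, hb⟩ : ∃ b, b = Nat.card {y : G // IsConj (x'.left aa) y} := ⟨_, rfl⟩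
    obtain ⟨m, hm⟩ : ∃ m, m = ((Dw 2 D).subgroupOf
      (Subgroup.centralizer ({x'} : Set (Wc G 2)))).index := ⟨_, rfl⟩
    rw [← ha] at t1 t3 p1
    rw [← hb] at t2 t3 p2
    rw [← hm] at t3 ⊢
    have key : n * m = 2 * (m1 * m2) := by
      have h1 : (a * b * Nat.card D ^ 2) * (n * m) = (a * b * Nat.card D ^ 2) * (2 * (m1 * m2)) := by
        calc (a * b * Nat.card D ^ 2) * (n * m) = n * (a * b) * (Nat.card D ^ 2 * m) := by ring
          _ = Nat.card G ^ 2 * 2 := t3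
          _ = (a * (Nat.card D * m1)) * (b * (Nat.card D * m2)) * 2 := by
            rw [t1, t2]
            ring
          _ = (a * b * Nat.card D ^ 2) * (2 * (m1 * m2)) := by ring
      have h2 : 0 < a * b * Nat.card D ^ 2 := by positivity
      exact Nat.eq_of_mul_eq_mul_left h2 h1
    intro hdvd
    have h1 : p ∣ 2 * (m1 * m2) := by
      rw [← key]
      exact Dvd.dvd.mul_left hdvd n
    rcases hpp.dvd_mul.mp h1 with h | h
    · exact hp ((Nat.prime_dvd_prime_iff_eq hpp Nat.prime_two).mp h)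
    · rcases hpp.dvd_mul.mp h with h | h
      · exact hm1 h
      · exact hm2 h
  have hpg : IsPGroup p ((Dw 2 D).subgroupOf (Subgroup.centralizer ({x'} : Set (Wc G 2)))) := by
    obtain ⟨n, hn⟩ := hDp.exists_card_eq
    refine IsPGroup.of_card (n := n * 2) ?_
    rw [hc2, hn, pow_mul]
  refine ⟨x', ⟨hpg.toSylow hidx, ?_⟩, ?_, ?_⟩
  · exact (Subgroup.map_subgroupOf_eq_of_le hle).symm
  · intro χ hχ h
    have iχ := gx_irr hC hB hB' hne χ hχ
    apply k2
    rw [hblk.red_eq hΨ hχ x, iχ.omega_congr hconj]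
    exact red_eq_zero h
  · rw [gx_coeff hC hB hB' hne]
    intro h
    apply k1
    rw [hcl.isConj hconj]
    exact red_eq_zero h

end Pool.Agent.Q151.AM
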