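import Pool.Agent.Q151.AM.GBL
import Pool.Agent.Q222.TC.TBC

/-!
# JOB GCO of project AM: the Brauer correspondent of the block over two different blocks
-/

set_option autoImplicit false

open scoped Classical

noncomputable section

namespace Pool.Agent.Q151.AM

open Pool.Agent.Q17.AM Pool.Agent.Q17.WR
open Pool.Agent.H254R3.IN hiding NN

/-- the sum over a class -/
def Cj {G N : Type} [Group G] [Group N] [Fintype N] (j : N → G) (h : N → ℂ) (y : G) : ℂ :=
  (∑ u, if IsConj y (j u) then h u else 0) / h 1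

/-- the factor `1 / 2` or `1` -/
def kap2 {G : Type} [Group G] (a b : G) : ℂ := if IsConj a b then 2⁻¹ else 1

lemma kap2_spec {G : Type} [Group G] (a b u v : G) :
    (if (IsConj a u ∧ IsConj b v) ∨ (IsConj b u ∧ IsConj a v) then (1 : ℂ) else 0) =
      kap2 a b * ((if IsConj a u then 1 else 0) * (if IsConj b v then 1 else 0) +
        (if IsConj b u then 1 else 0) * (if IsConj a v then 1 else 0)) := by
  unfold kap2
  by_cases h : IsConj a b
  · have h1 : ∀ w, IsConj a w ↔ IsConj b w :=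
      fun w => ⟨fun h2 => h.symm.trans h2, fun h2 => h.trans h2⟩
    rw [if_pos h]
    by_cases hu : IsConj b u
    · have hu' := (h1 u).mpr hu
      by_cases hv : IsConj b v
      · have hv' := (h1 v).mpr hv
        rw [if_pos (Or.inl ⟨hu', hv⟩), if_pos hu', if_pos hv, if_pos hu, if_pos hv']
        norm_num
      · have hv' : ¬ IsConj a v := fun h2 => hv ((h1 v).mp h2)
        rw [if_neg (fun h3 => h3.elim (fun h4 => hv h4.2) (fun h4 => hv' h4.2)), if_neg hv,
          if_neg hv']
        ring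
    · have hu' : ¬ IsConj a u := fun h2 => hu ((h1 u).mp h2)
      rw [if_neg (fun h3 => h3.elim (fun h4 => hu' h4.1) (fun h4 => hu h4.1)), if_neg hu',
        if_neg hu]
      ring
  · rw [if_neg h, one_mul]
    by_cases h1 : IsConj a u ∧ IsConj b v
    · have h2 : ¬ IsConj b u := fun h3 => h (h1.1.trans h3.symm)
      rw [if_pos (Or.inl h1), if_pos h1.1, if_pos h1.2, if_neg h2]
      ring
    · by_cases h2 : IsConj b u ∧ IsConj a v
      · have h3 : ¬ IsConj a u := fun h3 => h (h3.trans h2.1.symm)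
        rw [if_pos (Or.inr h2), if_pos h2.1, if_pos h2.2, if_neg h3]
        ring
      · rw [if_neg (by tauto)]
        have e1 : (if IsConj a u then (1 : ℂ) else 0) * (if IsConj b v then 1 else 0) = 0 := by
          by_cases hh : IsConj a u
          · rw [if_neg (fun h3 => h1 ⟨hh, h3⟩), mul_zero]
          · rw [if_neg hh, zero_mul]
        have e2 : (if IsConj b u then (1 : ℂ) else 0) * (if IsConj a v then 1 else 0) = 0 := by
          by_cases hh : IsConj b u
          · rw [if_neg (fun h3 => h2 ⟨hh, h3⟩), mul_zero]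
          · rw [if_neg hh, zero_mul]
        rw [e1, e2, add_zero]

lemma fin_to {X : Type} [Fintype X] (P : X → Prop) (F : X → ℂ) :
    ∑ᶠ z : {z : X // P z}, F z = ∑ z, (if P z then 1 else 0) * F z := by
  rw [finsum_eq_sum_of_fintype, ← Finset.sum_subtype (Finset.univ.filter P) (by simp) F,
    Finset.sum_filter]
  refine Finset.sum_congr rfl fun z _ => ?_
  split_ifs
  · rw [one_mul]
  · rw [zero_mul]

section

variable {G N : Type} [Group G] [Group N] [Fintype N]

theorem sum_conj [Fintype (Wc N 2)] (j : N → G) (E : Wc N 2 → Wc G 2)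
    (hE : ∀ z, (E z).right = z.right)
    (hE2 : ∀ z ω, (E z).left ω = j (z.left ω)) (h : Cy 2 → N → ℂ) (h1 : h 1 1 ≠ 0)
    (h2 : h aa 1 ≠ 0) (x : Wc G 2) (hx : x.right = 1) :
    ∑ᶠ z : {z : Wc N 2 // IsConj x (E z)}, nch h z / nch h 1 =
      kap2 (x.left 1) (x.left aa) * (Cj j (h 1) (x.left 1) * Cj j (h aa) (x.left aa) +
        Cj j (h aa) (x.left 1) * Cj j (h 1) (x.left aa)) := by
  rw [fin_to (fun z : Wc N 2 => IsConj x (E z)) (fun z => nch h z / nch h 1), nch_EE,
    sum_base _ (fun z hz => by rw [EE_neg _ _ hz, zero_div, mul_zero])]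
  have e1 : ∀ u v : N, (if IsConj x (E (mk2 u v 1)) then (1 : ℂ) else 0) *
      (EE (h 1) (h aa) (mk2 u v 1) / EE (h 1) (h aa) 1) =
      kap2 (x.left 1) (x.left aa) * (2 * (h 1 1 * h aa 1))⁻¹ *
      (((if IsConj (x.left 1) (j u) then h 1 u else 0) *
          (if IsConj (x.left aa) (j v) then h aa v else 0) +
        (if IsConj (x.left aa) (j u) then h 1 u else 0) *
          (if IsConj (x.left 1) (j v) then h aa v else 0)) +
       ((if IsConj (x.left 1) (j u) then h aa u else 0) *
          (if IsConj (x.left aa) (j v) then h 1 v else 0) +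
        (if IsConj (x.left aa) (j u) then h aa u else 0) *
          (if IsConj (x.left 1) (j v) then h 1 v else 0))) := by
    intro u v
    have e2 : IsConj x (E (mk2 u v 1)) ↔ ((IsConj (x.left 1) (j u) ∧ IsConj (x.left aa) (j v)) ∨
        (IsConj (x.left aa) (j u) ∧ IsConj (x.left 1) (j v))) := by
      rw [conj2 hx, hE, hE2, hE2, mk2_one, mk2_aa]
      exact ⟨fun h => h.2, fun h => ⟨rfl, h⟩⟩
    have e3 : (if IsConj x (E (mk2 u v 1)) then (1 : ℂ) else 0) =
        if ((IsConj (x.left 1) (j u) ∧ IsConj (x.left aa) (j v)) ∨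
          (IsConj (x.left aa) (j u) ∧ IsConj (x.left 1) (j v))) then 1 else 0 := by
      simp only [e2]
    have e4 : ∀ (P : Prop) (t : ℂ), (if P then t else 0) = (if P then 1 else 0) * t := by
      intro P t
      split_ifs
      · rw [one_mul]
      · rw [zero_mul]
    rw [e3, kap2_spec, EE_at_one, EE_pos _ _ rfl, mk2_one, mk2_aa]
    rw [e4 _ (h 1 u), e4 _ (h 1 v), e4 _ (h aa u), e4 _ (h aa v), e4 _ (h 1 u), e4 _ (h 1 v),
      e4 _ (h aa u), e4 _ (h aa v)]
    ring
  simp only [e1, ← Finset.mul_sum, Finset.sum_add_distrib, ← Finset.sum_mul]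
  unfold Cj
  field_simp
  ring

end

/-- the Brauer correspondent at a class -/
lemma corr_mem {G : Type} [Group G] [Fintype G] {p : ℕ} {O : ValuationSubring ℂ}
    {D : Subgroup G} [Fintype (NN D)] {B : Set (G → ℂ)} {b : Set (NN D → ℂ)} (hB : IsBlock O B)
    (hb : IsBrauerCorrespondent p O D B b) {χ : G → ℂ} (hχ : χ ∈ B) {θ : NN D → ℂ} (hθ : θ ∈ b)
    (y : G) : Cj (fun z : NN D => (z : G)) θ y ∈ O ∧
      red O (omega χ y) = red O (Cj (fun z : NN D => (z : G)) θ y) := by
  have h := hb.2.2 χ hχ θ hθ y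
  have e : ∑ᶠ z : {z : NN D // IsConj y (z : G)}, θ z / θ 1 =
      Cj (fun z : NN D => (z : G)) θ y := by
    rw [fin_to (fun z : NN D => IsConj y (z : G)) (fun z => θ z / θ 1)]
    unfold Cj
    rw [Finset.sum_div]
    refine Finset.sum_congr rfl fun z _ => ?_
    split_ifs
    · rw [one_mul]
    · rw [zero_mul, zero_div]
  rw [e] at h
  exact red_congr ((hB.irr χ hχ).omega_mem O y) h

theorem t_GCO : S_CLS → S_CCL → S_GBL → S_GCO := by
  intro hC hc hG G _ _ p _ hp O hpO B B' D b b' hB hB' hne hD hD' hb hb' e he1 he2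
  have : Fintype (NN D) := Fintype.ofFinite _
  have : Fintype (Wc (NN D) 2) := Fintype.ofFinite _
  have : Fintype (Wc G 2) := Fintype.ofFinite _
  have hbne : b ≠ b' := by
    intro hbb
    obtain ⟨χ, hχ⟩ := hB.nonempty
    obtain ⟨χ', hχ'⟩ := hB'.nonempty
    obtain ⟨θ, hθ⟩ := hb.1.nonempty
    have h1 : χ ∈ B' := by
      by_contra hn
      obtain ⟨y, hy⟩ := hB'.exists_ne hχ' (hB.irr χ hχ) hn
      apply hy
      rw [(corr_mem hB hb hχ hθ y).2, (corr_mem hB' hb' hχ' (hbb ▸ hθ) y).2]
    exact hne (block_disj hB hB' hχ h1)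
  obtain ⟨blk, dfg⟩ := hG (NN D) p hp O hpO b b' hb.1 hb'.1 hbne (D.subgroupOf (NN D))
    hb.2.1 hb'.2.1
  have hset : {θ : NN (Dw 2 D) → ℂ | (fun x => θ (e x)) ∈ GX b b'} =
      Pool.Agent.Q222.TC.tb e.symm (GX b b') := by
    ext θ
    constructor
    · intro h
      refine ⟨_, h, ?_⟩
      funext x
      rw [MulEquiv.apply_symm_apply]
    · rintro ⟨θ₀, h0, rfl⟩
      show (fun x => θ₀ (e.symm (e x))) ∈ GX b b'
      simp only [MulEquiv.symm_apply_apply]
      exact h0
  refine ⟨?_, ?_, ?_⟩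
  · rw [hset]
    exact Pool.Agent.Q222.TC.tb_block e.symm blk
  · rw [hset]
    have h1 := Pool.Agent.Q222.TC.tb_defect e.symm dfg
    have h2 : (Dw 2 (D.subgroupOf (NN D))).comap e.symm.toMonoidHom =
        (Dw 2 D).subgroupOf (NN (Dw 2 D)) := by
      ext y
      obtain ⟨z, rfl⟩ := e.surjective y
      have h3 : e z ∈ (Dw 2 (D.subgroupOf (NN D))).comap e.symm.toMonoidHom ↔
          z ∈ Dw 2 (D.subgroupOf (NN D)) := by
        show e.symm (e z) ∈ Dw 2 (D.subgroupOf (NN D)) ↔ _
        rw [MulEquiv.symm_apply_apply]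
      rw [h3]
      constructor
      · rintro ⟨h4, h5⟩
        refine ⟨?_, fun ω => ?_⟩
        · show (e z : Wc G 2).right = 1
          rw [he1, h4]
        · show (e z : Wc G 2).left ω ∈ D
          rw [he2]
          exact h5 ω
      · rintro ⟨h4, h5⟩
        refine ⟨?_, fun ω => ?_⟩
        · rw [← he1]
          exact h4
        · show ((z.left ω : NN D) : G) ∈ D
          rw [← he2]
          exact h5 ω
    rw [← h2]
    exact h1
  · rintro χ hχ θ hθ x
    have iχ := gx_irr hC hB hB' hne χ hχ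
    obtain ⟨f, f1, f2, rfl⟩ := hχ
    obtain ⟨h, h1, h2, hh⟩ := hθ
    have if1 := hB.irr _ f1
    have if2 := hB'.irr _ f2
    have ih1 := hb.1.irr _ h1
    have ih2 := hb'.1.irr _ h2
    -- the sum over the elements of `Wc (NN D) 2`
    have s1 : ∑ᶠ y : {y : NN (Dw 2 D) // IsConj x (y : Wc G 2)}, θ y / θ 1 =
        ∑ᶠ z : {z : Wc (NN D) 2 // IsConj x (e z : Wc G 2)}, nch h z / nch h 1 := by
      let Eq : {z : Wc (NN D) 2 // IsConj x (e z : Wc G 2)} ≃
          {y : NN (Dw 2 D) // IsConj x (y : Wc G 2)} :=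
        e.toEquiv.subtypeEquiv (fun z => Iff.rfl)
      rw [← finsum_comp_equiv Eq]
      refine finsum_congr fun z => ?_
      have e1 : ∀ w, nch h w = θ (e w) := fun w => (congrFun hh w).symm
      rw [e1, e1, map_one]
      rfl
    rw [s1]
    by_cases hx : x.right = 1
    · have s2 := sum_conj (fun z : NN D => (z : G)) (fun z => (e z : Wc G 2)) he1 he2 h
        ih1.one_ne ih2.one_ne x hx
      rw [s2]
      have s3 := sum_conj (fun z : G => z) (fun z => z) (fun _ => rfl) (fun _ _ => rfl) f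
        if1.one_ne if2.one_ne x hx
      rw [Pool.Agent.Q222.TC.omega_sum iχ x] at s3
      rw [s3]
      have o1 : ∀ {ψ : G → ℂ}, IsIrr ψ → ∀ y, Cj (fun z : G => z) ψ y = omega ψ y := by
        intro ψ iψ y
        rw [← Pool.Agent.Q222.TC.omega_sum iψ y,
          fin_to (fun z : G => IsConj y z) (fun z => ψ z / ψ 1)]
        unfold Cj
        rw [Finset.sum_div]
        refine Finset.sum_congr rfl fun z _ => ?_
        split_ifs
        · rw [one_mul]
        · rw [zero_mul, zero_div]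
      rw [o1 if1, o1 if1, o1 if2, o1 if2]
      have hk : kap2 (x.left 1) (x.left aa) ∈ O := by
        unfold kap2
        split_ifs
        · have h2 : ¬ p ∣ 2 := fun hd =>
            hp ((Nat.prime_dvd_prime_iff_eq Fact.out Nat.prime_two).mp hd)
          have := nat_inv_mem hpO h2
          exact_mod_cast this
        · exact O.one_mem
      obtain ⟨m1, r1⟩ := corr_mem hB hb f1 h1 (x.left 1)
      obtain ⟨m2, r2⟩ := corr_mem hB hb f1 h1 (x.left aa)
      obtain ⟨m3, r3⟩ := corr_mem hB' hb' f2 h2 (x.left 1)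
      obtain ⟨m4, r4⟩ := corr_mem hB' hb' f2 h2 (x.left aa)
      have w1 := if1.omega_mem O (x.left 1)
      have w2 := if1.omega_mem O (x.left aa)
      have w3 := if2.omega_mem O (x.left 1)
      have w4 := if2.omega_mem O (x.left aa)
      rw [← red_eq_iff
        (O.mul_mem _ _ hk (O.add_mem _ _ (O.mul_mem _ _ w1 w4) (O.mul_mem _ _ w3 w2)))
        (O.mul_mem _ _ hk (O.add_mem _ _ (O.mul_mem _ _ m1 m4) (O.mul_mem _ _ m3 m2))),
        red_mul hk (O.add_mem _ _ (O.mul_mem _ _ w1 w4) (O.mul_mem _ _ w3 w2)),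
        red_mul hk (O.add_mem _ _ (O.mul_mem _ _ m1 m4) (O.mul_mem _ _ m3 m2)),
        red_add (O.mul_mem _ _ w1 w4) (O.mul_mem _ _ w3 w2),
        red_add (O.mul_mem _ _ m1 m4) (O.mul_mem _ _ m3 m2),
        red_mul w1 w4, red_mul w3 w2, red_mul m1 m4, red_mul m3 m2, r1, r2, r3, r4]
    · have s4 : ∑ᶠ z : {z : Wc (NN D) 2 // IsConj x (e z : Wc G 2)}, nch h z / nch h 1 = 0 := by
        rw [finsum_eq_zero_of_forall_eq_zero]
        rintro ⟨z, hz⟩
        have hz' : z.right ≠ 1 := by
          intro h0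
          have h3 : (e z : Wc G 2).right = 1 := by rw [he1, h0]
          exact hx ((conj2 h3).mp hz.symm).1
        rw [nch_EE]
        show EE (h 1) (h aa) z / _ = 0
        rw [EE_neg _ _ hz', zero_div]
      rw [s4, sub_zero, ((hc G 2).2 x hx).1]
      exact O.nonunits.zero_mem

end Pool.Agent.Q151.AM
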