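import Pool.Agent.Q17.AM.Stm4
import Pool.Agent.H254R3.IN.PI

/-!
# JOB HT of project AM: heights are not negative
-/

set_option autoImplicit false

open scoped Classical

noncomputable section

namespace Pool.Agent.Q151.AM

open Pool.Agent.Q17.AM
open Pool.Agent.H254R3.IN hiding NN

lemma fact_mul {p a b : ℕ} (ha : a ≠ 0) (hb : b ≠ 0) :
    (a * b).factorization p = a.factorization p + b.factorization p := by
  rw [Nat.factorization_mul ha hb]
  rfl

/-- the index of a defect group and the size of a defect class -/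
lemma index_class {G : Type} [Group G] [Fintype G] {p : ℕ} [Fact p.Prime] {D : Subgroup G}
    {x : G} (P : Sylow p (Subgroup.centralizer ({x} : Set G)))
    (hD : D = (P : Subgroup (Subgroup.centralizer ({x} : Set G))).map
      (Subgroup.centralizer ({x} : Set G)).subtype) :
    D.index.factorization p = (Nat.card {y : G // IsConj x y}).factorization p := by
  have hpp : p.Prime := Fact.out
  have h1 := D.card_mul_index
  have h2 := card_class_mul x
  have h3 := (P : Subgroup (Subgroup.centralizer ({x} : Set G))).card_mul_index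
  have h4 : Nat.card D = Nat.card (P : Subgroup (Subgroup.centralizer ({x} : Set G))) := by
    rw [hD]
    exact (Nat.card_congr (Subgroup.equivMapOfInjective
      (P : Subgroup (Subgroup.centralizer ({x} : Set G))) _
      (Subgroup.subtype_injective _)).toEquiv).symm
  have h5 : D.index = Nat.card {y : G // IsConj x y} *
      (P : Subgroup (Subgroup.centralizer ({x} : Set G))).index := by
    have h6 : 0 < Nat.card D := Nat.card_pos
    apply Nat.eq_of_mul_eq_mul_left h6
    rw [h1, ← h2, ← h3, h4]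
    ring
  have hi : (P : Subgroup (Subgroup.centralizer ({x} : Set G))).index ≠ 0 :=
    Subgroup.index_ne_zero_of_finite
  have hc : Nat.card {y : G // IsConj x y} ≠ 0 := (card_class_pos x).ne'
  rw [h5, fact_mul hc hi, Nat.factorization_eq_zero_of_not_dvd (P.not_dvd_index), add_zero]

theorem t_HT : S_HT := by
  intro G _ _ p _ O hpO B D hB hD χ hχ n hn
  have hpp : p.Prime := Fact.out
  obtain ⟨x, ⟨P, hP⟩, hx, -⟩ := hD
  have iχ := hB.irr χ hχ
  have hn0 : n ≠ 0 := by
    rintro rfl
    exact iχ.one_ne (by rw [← hn]; norm_num)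
  rw [index_class P hP]
  obtain ⟨c, hc⟩ : ∃ c, c = Nat.card {y : G // IsConj x y} := ⟨_, rfl⟩
  have hc0 : c ≠ 0 := by
    rw [hc]
    exact (card_class_pos x).ne'
  rw [← hc]
  by_contra hlt
  push Not at hlt
  apply hx χ hχ
  have hom : omega χ x = (c : ℂ) * χ x / (n : ℂ) := by
    unfold omega
    rw [hn, hc]
  obtain ⟨b, hb⟩ : ∃ b, b = n.factorization p := ⟨_, rfl⟩
  rw [← hb] at hlt
  obtain ⟨n', hn'⟩ : ∃ n', n = p ^ b * n' := by
    rw [hb]
    exact Nat.ordProj_dvd n p
  obtain ⟨c', hc'⟩ : ∃ c', c = p ^ (b + 1) * c' := by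
    exact (pow_dvd_pow p (show b + 1 ≤ c.factorization p from hlt)).trans (Nat.ordProj_dvd c p)
  have hpn' : ¬ p ∣ n' := by
    intro h
    have h1 : p ^ (b + 1) ∣ n := by
      rw [pow_succ, hn']
      exact mul_dvd_mul_left _ h
    rw [hb] at h1
    exact Nat.pow_succ_factorization_not_dvd hn0 hpp h1
  have hp0 : (p : ℂ) ≠ 0 := by exact_mod_cast hpp.ne_zero
  have hn'0 : (n' : ℂ) ≠ 0 := by
    have : n' ≠ 0 := by
      rintro rfl
      exact hpn' (dvd_zero p)
    exact_mod_cast this
  have h1 : omega χ x = (p : ℂ) * ((c' : ℂ) * χ x * (n' : ℂ)⁻¹) := by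
    have e1 : (c : ℂ) = (p : ℂ) ^ (b + 1) * (c' : ℂ) := by
      exact_mod_cast hc'
    have e2 : (n : ℂ) = (p : ℂ) ^ b * (n' : ℂ) := by
      exact_mod_cast hn'
    rw [hom, e1, e2, pow_succ]
    field_simp
  have h2 : (c' : ℂ) * χ x * (n' : ℂ)⁻¹ ∈ O :=
    O.mul_mem _ _ (O.mul_mem _ _ (natCast_mem' c') (iχ.val_mem O x)) (nat_inv_mem hpO hpn')
  rw [h1, ← red_eq_zero_iff (O.mul_mem _ _ (nonunits_mem hpO) h2),
    red_mul (nonunits_mem hpO) h2, red_eq_zero hpO, zero_mul]

end Pool.Agent.Q151.AM
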