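import Pool.Agent.Q151.AM.HT
import Pool.Agent.Q151.AM.SYL

/-!
# JOB IZ of project AM: characters of height zero of the wreath product
-/

set_option autoImplicit false

open scoped Classical

noncomputable section

namespace Pool.Agent.Q151.AM

open Pool.Agent.Q17.AM Pool.Agent.Q17.WR
open Pool.Agent.H254R3.IN hiding NN

lemma card_cy (r : ℕ) [Fact r.Prime] : Fintype.card (Cy r) = r := by
  rw [← Nat.card_eq_fintype_card, Nat.card_congr Multiplicative.toAdd, Nat.card_zmod]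

lemma nch_one {G : Type} [Group G] {r : ℕ} [Fact r.Prime] (f : Cy r → G → ℂ) :
    (nch f : Wc G r → ℂ) 1 = r * ∏ ω, f ω 1 := by
  have h0 : (1 : Wc G r).right = 1 := rfl
  have h1 : ∀ ω, (1 : Wc G r).left ω = 1 := fun ω => rfl
  unfold nch prf
  rw [if_pos h0]
  simp only [h1]
  have h2 : ∀ a : Cy r, ∏ ω, f (a * ω) 1 = ∏ ω, f ω 1 := fun a =>
    Fintype.prod_equiv (Equiv.mulLeft a) _ _ (fun _ => rfl)
  simp only [h2]
  rw [Finset.sum_const, Finset.card_univ, card_cy, nsmul_eq_mul]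

lemma cch_one {G : Type} [Group G] {r : ℕ} [Fact r.Prime] (θ : G → ℂ) (l : Cy r →* ℂˣ) :
    (cch θ l : Wc G r → ℂ) 1 = θ 1 ^ r := by
  have h0 : (1 : Wc G r).right = 1 := rfl
  have h1 : ∀ ω, (1 : Wc G r).left ω = 1 := fun ω => rfl
  unfold cch
  rw [if_pos h0]
  simp only [h1]
  rw [Finset.prod_const, Finset.card_univ, card_cy]

lemma index_dw {G : Type} [Group G] [Finite G] (r : ℕ) [Fact r.Prime] (D : Subgroup G) :
    (Dw r D).index = D.index ^ r * r := by
  have h4 := (Dw r D).card_mul_index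
  rw [card_dw, card_wc, ← D.card_mul_index, mul_pow, mul_assoc] at h4
  have h5 : 0 < Nat.card D ^ r := pow_pos Nat.card_pos r
  exact Nat.eq_of_mul_eq_mul_left h5 h4

lemma fact_pow_mul {p r : ℕ} (hp : p.Prime) (hr : r.Prime) (hpr : p ≠ r) {a : ℕ} (ha : a ≠ 0) :
    (a * r).factorization p = a.factorization p := by
  rw [fact_mul ha hr.ne_zero, hr.factorization, Finsupp.single_eq_of_ne hpr, add_zero]

theorem t_IZ : S_HT → S_IZ := by
  intro hH G _ _ p r _ _ hpr O hpO B D hB hD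
  have hp : p.Prime := Fact.out
  have hr : r.Prime := Fact.out
  have hd : ∀ χ ∈ B, ∀ n : ℕ, (n : ℂ) = χ 1 → D.index.factorization p ≤ n.factorization p :=
    hH G p O hpO B D hB hD
  have hdeg : ∀ χ ∈ B, ∃ n : ℕ, n ≠ 0 ∧ (n : ℂ) = χ 1 := by
    intro χ hχ
    obtain ⟨n, h1, h2⟩ := (hB.irr χ hχ).deg
    exact ⟨n, h1.ne', h2⟩
  have hDi : D.index ≠ 0 := Subgroup.index_ne_zero_of_finite
  have hi : (Dw r D).index.factorization p = r * D.index.factorization p := by
    rw [index_dw, fact_pow_mul hp hr hpr (pow_ne_zero r hDi), Nat.factorization_pow]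
    rfl
  -- the degree of `nch f`
  have k1 : ∀ f : Cy r → G → ℂ, (∀ ω, f ω ∈ B) → ∃ m : Cy r → ℕ, (∀ ω, (m ω : ℂ) = f ω 1) ∧
      (∀ ω, D.index.factorization p ≤ (m ω).factorization p) ∧
      ∀ n : ℕ, (n : ℂ) = (nch f : Wc G r → ℂ) 1 →
        n.factorization p = ∑ ω, (m ω).factorization p := by
    intro f hf
    choose m hm0 hm using fun ω => hdeg (f ω) (hf ω)
    refine ⟨m, hm, fun ω => hd _ (hf ω) _ (hm ω), fun n hn => ?_⟩
    have h1 : n = (∏ ω, m ω) * r := by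
      have h2 : (n : ℂ) = (((∏ ω, m ω) * r : ℕ) : ℂ) := by
        rw [hn, nch_one]
        push_cast
        simp only [hm]
        ring
      exact_mod_cast h2
    rw [h1, fact_pow_mul hp hr hpr (Finset.prod_ne_zero_iff.mpr fun ω _ => hm0 ω),
      Nat.factorization_prod fun ω _ => hm0 ω, Finsupp.finsetSum_apply]
  have k2 : ∀ θ ∈ B, ∀ l : Cy r →* ℂˣ, ∃ m : ℕ, (m : ℂ) = θ 1 ∧
      ∀ n : ℕ, (n : ℂ) = (cch θ l : Wc G r → ℂ) 1 →
        n.factorization p = r * m.factorization p := by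
    intro θ hθ l
    obtain ⟨m, hm0, hm⟩ := hdeg θ hθ
    refine ⟨m, hm, fun n hn => ?_⟩
    have h1 : n = m ^ r := by
      have h2 : (n : ℂ) = ((m ^ r : ℕ) : ℂ) := by
        rw [hn, cch_one]
        push_cast
        rw [hm]
      exact_mod_cast h2
    rw [h1, Nat.factorization_pow]
    rfl
  have cs : ∑ _ω : Cy r, D.index.factorization p = r * D.index.factorization p := by
    rw [Finset.sum_const, Finset.card_univ, card_cy, smul_eq_mul]
  ext χ
  constructor
  · rintro ⟨hχ, n, hn, hn'⟩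
    rw [hi] at hn'
    rcases hχ with ⟨f, hf, hN, rfl⟩ | ⟨θ, hθ, l, rfl⟩
    · obtain ⟨m, hm, hm2, hm3⟩ := k1 f hf
      have h1 := hm3 n hn
      rw [hn', ← cs] at h1
      have h2 := (Finset.sum_eq_sum_iff_of_le (fun ω _ => hm2 ω)).mp h1
      exact Or.inl ⟨f, fun ω => ⟨hf ω, m ω, hm ω, (h2 ω (Finset.mem_univ ω)).symm⟩, hN, rfl⟩
    · obtain ⟨m, hm, hm2⟩ := k2 θ hθ l
      have h1 := hm2 n hn
      rw [hn'] at h1
      exact Or.inr ⟨θ, ⟨hθ, m, hm, (Nat.eq_of_mul_eq_mul_left hr.pos h1).symm⟩, l, rfl⟩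
  · rintro (⟨f, hf, hN, rfl⟩ | ⟨θ, hθ, l, rfl⟩)
    · refine ⟨Or.inl ⟨f, fun ω => (hf ω).1, hN, rfl⟩, ?_⟩
      choose m hm hm' using fun ω => (hf ω).2
      refine ⟨(∏ ω, m ω) * r, ?_, ?_⟩
      · rw [nch_one]
        push_cast
        simp only [hm]
        ring
      · have hm0 : ∀ ω, m ω ≠ 0 := by
          intro ω h0
          have h1 := (hB.irr _ (hf ω).1).one_ne
          rw [← hm ω, h0] at h1
          exact h1 (by norm_num)
        rw [hi, fact_pow_mul hp hr hpr (Finset.prod_ne_zero_iff.mpr fun ω _ => hm0 ω),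
          Nat.factorization_prod fun ω _ => hm0 ω, Finsupp.finsetSum_apply]
        simp only [hm']
        exact cs
    · obtain ⟨hθB, m, hm, hm'⟩ := hθ
      refine ⟨Or.inr ⟨θ, hθB, l, rfl⟩, m ^ r, ?_, ?_⟩
      · rw [cch_one]
        push_cast
        rw [hm]
      · rw [hi, Nat.factorization_pow, ← hm']
        rfl

end Pool.Agent.Q151.AM
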